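import Pool.Agent.helper6.EV.Spec

set_option autoImplicit false

namespace Pool.Agent.EV

open N1f72dd46 Filter MeasureTheory Complex Metric Pool.Agent.helper6.LD

theorem I4_nat (a b : ℕ) (h : a ≤ b) :
    Nat.primeCounting b ≤ Nat.primeCounting a + (b - a) := by
  obtain ⟨k, rfl⟩ := Nat.exists_eq_add_of_le h
  induction k with
  | zero => simp
  | succ k ih =>
    have h1 := ih (Nat.le_add_right a k)
    have h2 : Nat.primeCounting (a + (k + 1)) ≤ Nat.primeCounting (a + k) + 1 := by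
      rw [Nat.primeCounting, Nat.primeCounting, Nat.primeCounting',
        show a + (k + 1) + 1 = (a + k + 1) + 1 by ring, Nat.count_succ]
      split_ifs <;> omega
    omega

theorem I4_self (a : ℕ) : Nat.primeCounting a ≤ a := by
  have h1 := I4_nat 0 a (Nat.zero_le a)
  simpa using h1

theorem I4 : I4_stmt := by
  refine ⟨?_, ?_, ?_, ?_, ?_⟩
  · intro x y h
    unfold pc
    exact_mod_cast Nat.monotone_primeCounting (Nat.floor_mono h)
  · intro x
    unfold pc
    positivity
  · intro x y hx hxy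
    unfold pc
    have h1 := I4_nat ⌊x⌋₊ ⌊y⌋₊ (Nat.floor_mono hxy)
    have h2 : (Nat.primeCounting ⌊y⌋₊ : ℝ) ≤ Nat.primeCounting ⌊x⌋₊ + ((⌊y⌋₊ - ⌊x⌋₊ : ℕ) : ℝ) := by
      exact_mod_cast h1
    rw [Nat.cast_sub (Nat.floor_mono hxy)] at h2
    have h3 := Nat.floor_le (hx.trans hxy)
    have h4 := Nat.lt_floor_add_one x
    linarith
  · intro x hx
    unfold pc
    have h1 : (Nat.primeCounting ⌊x⌋₊ : ℝ) ≤ (⌊x⌋₊ : ℝ) := by exact_mod_cast I4_self _
    exact h1.trans (Nat.floor_le hx)
  · intro x hx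
    unfold pc
    have h1 : ⌊x⌋₊ < 2 := by
      rcases le_or_gt x 0 with h | h
      · rw [Nat.floor_of_nonpos h]
        norm_num
      · rw [Nat.floor_lt h.le]
        exact_mod_cast hx
    have h2 : Nat.primeCounting ⌊x⌋₊ = 0 := by
      interval_cases ⌊x⌋₊ <;> decide
    rw [h2]
    norm_num

end Pool.Agent.EV
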