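import Pool.Agent.helper6.EV.Spec

set_option autoImplicit false

namespace Pool.Agent.EV

open N1f72dd46 Filter MeasureTheory Complex Metric Pool.Agent.helper6.LD

theorem SH_log2 : (1 : ℝ) / 2 < Real.log 2 := by
  have := Real.log_two_gt_d9
  linarith

theorem SH (hIN : IN_stmt) : SH_stmt := by
  intro s k a hs ha
  obtain ⟨-, -, h0, hint, -⟩ := hIN
  have hl := SH_log2
  have ha' := abs_le.1 ha
  let F : ℝ → ℂ := fun v => (pe v : ℂ) * ((v : ℂ) - a) ^ k * Complex.exp (-s * ((v : ℂ) - a))
  have e1 : Jt s k a = ∫ u : ℝ, F (u + a) := by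
    unfold Jt
    rw [setIntegral_eq_integral_of_forall_compl_eq_zero]
    · apply integral_congr_ae
      refine Filter.Eventually.of_forall fun u => ?_
      simp only [F]
      push_cast
      rw [add_sub_cancel_right]
    · intro u hu
      have hu' : u ≤ 0 := not_lt.1 hu
      rw [h0 (u + a) (by linarith)]
      simp
  have e2 : ∫ u : ℝ, F (u + a) = ∫ u : ℝ, F u := integral_add_right_eq_self F a
  have e3 : ∫ u : ℝ, F u = ∫ u in Set.Ioi (0 : ℝ), F u := by
    rw [setIntegral_eq_integral_of_forall_compl_eq_zero]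
    intro u hu
    have hu' : u ≤ 0 := not_lt.1 hu
    simp only [F]
    rw [h0 u (by linarith)]
    simp
  have e4 : ∀ u : ℝ, F u = ∑ j ∈ Finset.range (k + 1), (Complex.exp (s * a) *
      ((k.choose j : ℂ) * (-(a : ℂ)) ^ j)) *
        ((pe (u + 0) : ℂ) * (u : ℂ) ^ (k - j) * Complex.exp (-s * u)) := by
    intro u
    simp only [F]
    have h1 : ((u : ℂ) - a) ^ k = ∑ j ∈ Finset.range (k + 1),
        (-(a : ℂ)) ^ j * (u : ℂ) ^ (k - j) * (k.choose j : ℂ) := by
      rw [← add_pow]
      ring
    have h2 : Complex.exp (-s * ((u : ℂ) - a)) = Complex.exp (s * a) * Complex.exp (-s * u) := by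
      rw [← Complex.exp_add]
      congr 1
      ring
    rw [h1, h2, Finset.mul_sum, Finset.sum_mul]
    apply Finset.sum_congr rfl
    intro j _
    rw [add_zero]
    ring
  rw [e1, e2, e3]
  have e5 : ∫ u in Set.Ioi (0 : ℝ), F u = ∫ u in Set.Ioi (0 : ℝ), ∑ j ∈ Finset.range (k + 1),
      (Complex.exp (s * a) * ((k.choose j : ℂ) * (-(a : ℂ)) ^ j)) *
        ((pe (u + 0) : ℂ) * (u : ℂ) ^ (k - j) * Complex.exp (-s * u)) := by
    apply integral_congr_ae
    exact Filter.Eventually.of_forall fun u => e4 u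
  rw [e5, integral_finsetSum]
  · rw [Finset.mul_sum]
    apply Finset.sum_congr rfl
    intro j _
    rw [integral_const_mul]
    unfold Jt
    ring
  · intro j _
    exact (hint s (k - j) 0 hs).const_mul _

end Pool.Agent.EV
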